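import Pool.Agent.W819.EN.Stm2

/-!
EN-FINA: almost sure lower bounds.
-/

namespace Pool.Agent.W135.EN
open H974 Finset Filter Topology MeasureTheory
open scoped Real ENNReal
open Pool.Agent.W819.EN

/-- Borel-Cantelli. -/
lemma bc (S : ℕ → Finset Edg) (Q : ℕ → Finset Edg → Prop) (n0 : ℕ)
    (h : ∀ n : ℕ, n0 ≤ n → Pr P2 (S n) (Q n) ≤ 1 / (n : ℝ) ^ 2) :
    ∀ᵐ ω ∂(bondLaw hlf), ∀ᶠ n : ℕ in atTop, ¬ Q n (FF (S n) ω) := by
  have hs : ∑' n : ℕ, (bondLaw hlf) {ω | n0 ≤ n ∧ Q n (FF (S n) ω)} ≠ ∞ := by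
    have hsum : Summable fun n : ℕ => 1 / (n : ℝ) ^ 2 :=
      Real.summable_one_div_nat_pow.2 (by norm_num)
    refine ne_top_of_le_ne_top hsum.tsum_ofReal_ne_top (ENNReal.tsum_le_tsum fun n => ?_)
    by_cases hn : n0 ≤ n
    · have h1 : {ω | n0 ≤ n ∧ Q n (FF (S n) ω)} = {ω | Q n (FF (S n) ω)} := by
        ext ω
        exact ⟨fun h => h.2, fun h => ⟨hn, h⟩⟩
      rw [h1, ← ofReal_measureReal]
      refine ENNReal.ofReal_le_ofReal ?_
      rw [law_event hlf (S n) (Q n)]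
      exact h n hn
    · have h1 : {ω : sqLattice.edgeSet → Bool | n0 ≤ n ∧ Q n (FF (S n) ω)} = ∅ := by
        ext ω
        simp [hn]
      rw [h1]
      simp
  filter_upwards [ae_eventually_notMem hs] with ω hω
  filter_upwards [hω, eventually_ge_atTop n0] with n h1 h2 h3
  exact h1 ⟨h2, h3⟩

lemma FF_inter (S T : Finset Edg) (ω : sqLattice.edgeSet → Bool) :
    FF S ω ∩ T = FF (S ∩ T) ω := by
  ext e
  rw [Finset.mem_inter, mem_FF, mem_FF, Finset.mem_inter]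
  tauto

lemma bx_sub {n : ℕ} {v : Vtx} (hv : v ∈ vb n) : bx v n ⊆ bx (0, 0) (2 * n) := by
  unfold vb at hv
  rw [Finset.mem_product, Finset.mem_Icc, Finset.mem_Icc] at hv
  intro e he
  obtain ⟨x, y, b⟩ := e
  unfold bx at he ⊢
  cases b
  · rw [mem_RE_false] at he ⊢
    simp only at he ⊢
    omega
  · rw [mem_RE_true] at he ⊢
    simp only at he ⊢
    omega

lemma lay_eq {N : Finset Edg → Vtx → ℕ → ℕ → ℕ} (hG : Geo N) {n : ℕ} {v : Vtx} (hv : v ∈ vb n)
    (ω : sqLattice.edgeSet → Bool) : lay N n v ω = N (FF (bx (0, 0) (2 * n)) ω) v 0 n := by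
  have h1 : an v 0 n ⊆ bx v n := Finset.sdiff_subset
  have h2 : an v 0 n ⊆ bx (0, 0) (2 * n) := h1.trans (bx_sub hv)
  unfold lay
  rw [hG.loc (FF (bx v n) ω) v 0 n (Nat.zero_le n),
    hG.loc (FF (bx (0, 0) (2 * n)) ω) v 0 n (Nat.zero_le n), FF_inter, FF_inter,
    Finset.inter_eq_right.2 h1, Finset.inter_eq_right.2 h2]

/-- EN-FINA. -/
theorem t_FINA {N : Finset Edg → Vtx → ℕ → ℕ → ℕ} (hG : Geo N) (hM : Many N) (hF : Few N) :
    LoA N := by
  refine ⟨fun s0 s1 ε hs hε hg => ?_, fun s1 s0 ε hs hε hg => ?_⟩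
  · obtain ⟨n0, hn0⟩ := hF s0 s1 ε hs hε hg
    filter_upwards [bc (fun n : ℕ => bx (0, 0) (2 * n)) _ n0
      (fun n hn => hn0 n hn (bx (0, 0) (2 * n)) (Finset.Subset.refl _))] with ω hω
    filter_upwards [hω] with n h1
    rw [not_lt] at h1
    have h2 : few N n (dL s1 * Real.log n) ω = ((vb n).filter (fun v =>
        (N (FF (bx (0, 0) (2 * n)) ω) v 0 n : ℝ) ≤ dL s1 * Real.log n)).card := by
      unfold few
      congr 1
      refine Finset.filter_congr fun v hv => ?_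
      rw [lay_eq hG hv]
    rw [h2]
    exact h1
  · obtain ⟨n0, hn0⟩ := hM s1 s0 ε hs hε hg
    filter_upwards [bc (fun n : ℕ => bx (0, 0) (2 * n)) _ n0
      (fun n hn => hn0 n hn (bx (0, 0) (2 * n)) (Finset.Subset.refl _))] with ω hω
    filter_upwards [hω] with n h1
    rw [not_lt] at h1
    have h2 : many N n (dL s1 * Real.log n) ω = ((vb n).filter (fun v =>
        dL s1 * Real.log n ≤ (N (FF (bx (0, 0) (2 * n)) ω) v 0 n : ℝ))).card := by
      unfold many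
      congr 1
      refine Finset.filter_congr fun v hv => ?_
      rw [lay_eq hG hv]
    rw [h2]
    exact h1

end Pool.Agent.W135.EN
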